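import Mathlib
import Pool.Agent.N602.FT.SparseCost

/-!
# MP_0036f5_lc: how often does a deterministic machine have to turn?

Every 1-limited automaton of size `n` has an equivalent deterministic one of size at most
`2 ^ ((n + 2) ^ 4)` (the starting files of this problem). Here we determine how the cost of
determinization depends on the number of cells of the input in which the head of the deterministic
machine turns. The head turns at a cell `i` if it enters `i` from a neighbour and goes back to this
neighbour with the next move (`TurnsAt`). There is a sharp threshold.

* If the head turns at `o(|w|)` cells of the accepted inputs `w` (`FewTurns`) then the cost is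
  doubly exponential, with matching bounds: for every class `Cl` of machines that contains the
  deterministic one-way machines and whose deterministic members have few turns, the cost
  `DIn Cl n` satisfies `2 ^ 2 ^ (n ^ 2 / 10 ^ 11) ≤ DIn Cl n ≤ 2 ^ 2 ^ (2 * n ^ 2)` for
  `n ≥ 680000`. For deterministic machines this covers the one-way machines, the sweeping machines
  (whose head turns at the end-markers only) and the machines with `o(|w|)` head reversals. There is
  no bound for the number of visits of a cell, for the rewriting or for the work alphabet.
* If the head may turn at an arbitrarily small positive fraction of the cells, more precisely at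
  `|w| / C + 1` cells of every input `w`, where the constant `C` is as large as we wish, then the
  cost is at most `2 ^ ((n + 2) ^ 4 + 2 * C * n)`, so it is singly exponential in a polynomial of
  degree four like the cost `D(n)` without restriction.

The lower bound holds for the number of states: for every `m` there is a 1-limited automaton of
size at most `170000 * (m + 1)` over a fixed alphabet with seven letters such that every equivalent
deterministic machine with few turns has `s` states with
`2 ^ 2 ^ (m ^ 2) ≤ (s + 1) ^ 2 + 2 * (s + 1) ^ 3`.

Proof of the lower bound. A cell in which the head does not turn is passed in straight passes: the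
first one, from left to right, which rewrites the cell, and later ones in both directions. A factor
`x` of the input without turning cells acts on the states by its first pass `phi x`, and, given the
state `e` in which it is entered in the first pass, by the passes `lam x e` from left to right and
`rho x e` from right to left. If two words have the same three actions then one of them can be
replaced by the other one (`replace`). The witness reads a sequence of blocks, each of which has to
be accepted, so that the accepted sequences are closed under concatenation; a block consists of a
set `G` and a list of elements, and it is accepted if one of the elements is in `G`. We choose an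
accepted sequence `Θ` for which the image of `phi` and then the images of `lam` and `rho` are as
small as possible. If a block `x` acts on these images by permutations, in the context
`Θ x Θ Θ`, then a power of `Θ x Θ Θ` acts as the identity, so in a long power of `Θ` we find a
factor without turning cells that can be replaced by a word with the factor `x`, and `x` is
accepted. So for every rejected block one of the three actions is not injective, and this is
witnessed by two or three states reached after the first half of the block. This gives a fooling set
argument for the disjointness of a subset of the `m × m` bit matrices and its complement.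

Proof of the upper bound. The table automaton, a nondeterministic one-way automaton, is read in
groups of `C` letters and simulated by a deterministic 1-limited automaton over the alphabet of the
groups. This one is simulated by a machine for the single letters which writes the symbol for a
group in the last cell of the group, passes the other cells without turning, and simulates the
moves at the last, incomplete group at the right end-marker (`grpM`).
-/

set_option autoImplicit false

namespace Pool.Agent.Results.MP_0036f5_lc.FewTurns

open Filter
open Pool.Agent.H630R2.LA
open Pool.Agent.TH705.LB (Ltr)
open Pool.Agent.Y527.LA (OneWay)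
open Pool.Agent.N602.FT

theorem result (strict : Prop) :
    -- (1) few turns: the cost function of every class of machines with few turns
    (∀ Cl : Cls, (∀ (A : Type) (M : LimAut A), M.Deterministic → OneWay M → Cl A M) →
      (∀ (A : Type) (M : LimAut A), M.Deterministic → Cl A M → FewTurns strict M) →
      (∀ n : ℕ, 4 ≤ n → IsGreatest (costsIn Cl strict n) (DIn Cl strict n)) ∧
      (∀ n : ℕ, 680000 ≤ n → 2 ^ 2 ^ (n ^ 2 / 10 ^ 11) ≤ DIn Cl strict n ∧
        DIn Cl strict n ≤ 2 ^ 2 ^ (2 * n ^ 2)) ∧
      (∀ k : ℕ, ∀ᶠ n : ℕ in atTop, 2 ^ (Nat.log 2 (D strict n) ^ k) < DIn Cl strict n)) ∧
    -- (2) a small fraction of turning cells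
    (∀ C n : ℕ, 1 ≤ C → 4 ≤ n →
      IsGreatest (costsIn (turnsCls C strict) strict n) (DIn (turnsCls C strict) strict n) ∧
      D strict n ≤ DIn (turnsCls C strict) strict n ∧
      DIn (turnsCls C strict) strict n ≤ 2 ^ ((n + 2) ^ 4 + 2 * C * n)) ∧
    -- (3) the lower bound for the number of states
    (∀ m : ℕ, ∃ M : LimAut (BL Ltr), M.size ≤ 170000 * (m + 1) ∧
      ∀ M' : LimAut (BL Ltr), M'.Deterministic → FewTurns strict M' →
        M'.language strict = M.language strict →
        2 ^ 2 ^ (m ^ 2) ≤ (Nat.card M'.Q + 1) ^ 2 + 2 * (Nat.card M'.Q + 1) ^ 3) ∧
    -- (4) one-way machines, sweeping machines and few reversals
    (∀ (A : Type) (M : LimAut A), M.Deterministic →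
      (OneWay M → Sweeping strict M ∧ FewRev strict M) ∧
      (Sweeping strict M → FewTurns strict M) ∧ (FewRev strict M → FewTurns strict M)) := by
  refine ⟨?_, ?_, ?_, ?_⟩
  · intro Cl h1 h2
    have hCl : Adm Cl strict := ⟨h1, h2⟩
    refine ⟨fun n hn => greatest hCl n hn, ?_, fun k => separation hCl k⟩
    intro n hn
    refine ⟨?_, costsIn_le hCl n _ (greatest hCl n (by omega)).1⟩
    have h3 := DIn_lower hCl n hn
    have e : (10 : ℕ) ^ 11 = 100000000000 := by norm_num
    rw [e]
    exact h3
  · intro C n hC hn
    exact ⟨greatest_sparse hC n hn, D_le_sparse hC n,
      costs_sparse hC n _ (greatest_sparse hC n hn).1⟩
  · intro m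
    exact ⟨bwit m, size_bwit m, fun M' h1 h2 h3 => lower_few m strict M' h1 h2 h3⟩
  · intro A M hd
    exact ⟨fun h => ⟨sweeping_of_oneWay h, rev_of_oneWay h⟩, few_of_sweeping, few_of_rev hd⟩

end Pool.Agent.Results.MP_0036f5_lc.FewTurns
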