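import Mathlib
import Pool.Agent.N602.FT.TimeCost

/-!
# MP_0036f5_lc: time against size in the determinization of 1-limited automata

Every 1-limited automaton of size `n` has an equivalent deterministic one of size at most
`2 ^ ((n + 2) ^ 4)` (the starting files of this problem), and the deterministic machine obtained
works in linear time, but with an exponential factor: it makes at most `t * (|w| + 1)` moves on an
input `w`, for a number `t` which is exponential in a power of `n`. Here we show that this cannot be
avoided: small time factors need doubly exponential size.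

Let `DIn (timeCls t strict) strict n` be the cost of the conversion into deterministic machines that
make at most `t * (|w| + 1)` moves on every input `w`.

* `2 ^ 2 ^ (n ^ 2 / 10 ^ 11) ≤ DIn (timeCls t strict) strict n ^ (t + 1)` for `n ≥ 680000`, so the
  time factor times the logarithm of the size is at least `2 ^ (n ^ 2 / 10 ^ 11)`. Together with the
  bound `2 ^ 2 ^ (2 * n ^ 2)`, obtained with one-way machines, this shows that the cost has the
  order of growth `2 ^ 2 ^ Θ(n ^ 2)` for every fixed `t ≥ 1` (and for `t ≤ 2 ^ (c * n ^ 2)` with a
  small constant `c`).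
* If the cost is at most `2 ^ b` then `2 ^ (n ^ 2 / 10 ^ 11) ≤ b * (t + 1)`. So with
  `b = (n + 2) ^ 4`, the exponent of the bound for the cost `D` without restriction, the time factor
  `t` has to be at least `2 ^ (n ^ 2 / 10 ^ 11) / (n + 2) ^ 4 - 1`. On the other hand
  `t = 2 ^ ((n + 2) ^ 4)` is sufficient.

The lower bound needs the bound for the number of moves only on the inputs that are not in the
language of the deterministic machine (`FastRej`). It holds for the number of states: for every `m`
there is a 1-limited automaton of size at most `170000 * (m + 1)` over a fixed alphabet such that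
every equivalent deterministic machine has `s` states with
`2 ^ 2 ^ (m ^ 2) ≤ ((s + 1) ^ 2 + 1) ^ t * (s + 1)`, for every `t` for which it is `FastRej t`.

Proof. The witness is the block machine with a single block: a set `G` of `m × m` bit matrices,
some padding, and the list of the matrices outside a set `H`; such a word is accepted if and only
if `G` is not a subset of `H`, for any amount of padding. A deterministic machine that halts is
complemented with one more state (`complM`). We consider its accepting computations on the words
with `H = G`. If the padding is long then some boundary in the padding is crossed to the left at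
most `t` times (`exists_few_lefts`), so that there are at most `t` trips to the left of this
boundary. Accepting computations are cut at this boundary, and a left part and a right part with
the same set of trips and the same state at the first crossing are glued together
(`split`, `paste`): the trips that are required by the right part are available on the left part.
So different sets `G` have different sets of trips or states.
-/

set_option autoImplicit false

namespace Pool.Agent.Results.MP_0036f5_lc.TimeSize

open Filter
open Pool.Agent.H630R2.LA
open Pool.Agent.TH705.LB (Ltr)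
open Pool.Agent.Y527.LA (OneWay)
open Pool.Agent.N602.FT

theorem result (strict : Prop) :
    -- (1) classes of machines which are fast on the inputs outside of their languages
    (∀ (t : ℕ) (Cl : Cls),
      (∀ (A : Type) (M : LimAut A), M.Deterministic → OneWay M → Cl A M) →
      (∀ (A : Type) (M : LimAut A), M.Deterministic → Cl A M → FastRej t strict M) →
      (∀ n : ℕ, 4 ≤ n → IsGreatest (costsIn Cl strict n) (DIn Cl strict n)) ∧
      (∀ n : ℕ, 680000 ≤ n → 2 ^ 2 ^ (n ^ 2 / 10 ^ 11) ≤ DIn Cl strict n ^ (t + 1) ∧
        DIn Cl strict n ≤ 2 ^ 2 ^ (2 * n ^ 2)) ∧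
      (∀ n b : ℕ, 680000 ≤ n → DIn Cl strict n ≤ 2 ^ b → 2 ^ (n ^ 2 / 10 ^ 11) ≤ b * (t + 1)) ∧
      (∀ k : ℕ, ∀ᶠ n : ℕ in atTop, 2 ^ (Nat.log 2 (D strict n) ^ k) < DIn Cl strict n)) ∧
    -- (2) machines that make at most `t * (|w| + 1)` moves on every input `w`
    (∀ t n : ℕ, 1 ≤ t → 4 ≤ n →
      IsGreatest (costsIn (timeCls t strict) strict n) (DIn (timeCls t strict) strict n) ∧
      D strict n ≤ DIn (timeCls t strict) strict n ∧
      (680000 ≤ n →
        2 ^ 2 ^ (n ^ 2 / 10 ^ 11) ≤ DIn (timeCls t strict) strict n ^ (t + 1)) ∧
      DIn (timeCls t strict) strict n ≤ 2 ^ 2 ^ (2 * n ^ 2) ∧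
      (2 ^ ((n + 2) ^ 4) ≤ t → DIn (timeCls t strict) strict n ≤ 2 ^ ((n + 2) ^ 4))) ∧
    -- (3) the lower bound for the number of states
    (∀ m : ℕ, ∃ M : LimAut (BL Ltr), M.size ≤ 170000 * (m + 1) ∧
      ∀ (t : ℕ) (M' : LimAut (BL Ltr)), M'.Deterministic → FastRej t strict M' →
        M'.language strict = M.language strict →
        2 ^ 2 ^ (m ^ 2) ≤ ((Nat.card M'.Q + 1) ^ 2 + 1) ^ t * (Nat.card M'.Q + 1)) ∧
    -- (4) one-way machines, linear time, few visits
    (∀ (A : Type) (M : LimAut A) (t : ℕ),
      (OneWay M → LinTime 1 strict M) ∧ (LinTime t strict M → FastRej t strict M) ∧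
      (VisitsLe t strict M → LinTime (2 * t) strict M)) := by
  have e : (10 : ℕ) ^ 11 = 100000000000 := by norm_num
  refine ⟨?_, ?_, ?_, ?_⟩
  · intro t Cl h1 h2
    refine ⟨fun n hn => one_greatest h1 n hn, ?_, ?_, fun k => DT_separation h1 h2 k⟩
    · intro n hn
      refine ⟨?_, one_costsIn_le h1 n _ (one_greatest h1 n (by omega)).1⟩
      rw [e]
      exact DT_lower h1 h2 n hn
    · intro n b hn hb
      rw [e]
      exact DT_trade h1 h2 n b hn hb
  · intro t n ht hn
    have h1 : HasOne (timeCls t strict) := fun A M _ h => oneWay_linTime h ht
    refine ⟨one_greatest h1 n hn, one_D_le h1 n, ?_,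
      one_costsIn_le h1 n _ (one_greatest h1 n hn).1, fun h => DT_slow n t hn h⟩
    intro hn'
    rw [e]
    exact DT_lower h1 (fun A M _ h => LinTime.fastRej h) n hn'
  · intro m
    exact ⟨bwit m, size_bwit m, fun t M' h1 h2 h3 => lower_time m t strict M' h1 h2 h3⟩
  · intro A M t
    exact ⟨fun h => oneWay_linTime h le_rfl, LinTime.fastRej, VisitsLe.linTime⟩

end Pool.Agent.Results.MP_0036f5_lc.TimeSize
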